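import Pool.Agent.T9h3.LN.Spec4

/-!
# Piece (X1): rich vertices for a multiple of the order
-/

set_option autoImplicit false

namespace Pool.Agent.T9h37.LN

open Pool.Agent.T9h3 Pool.Agent.T9h3.H Pool.Agent.T9h3.LN

lemma Nm_mul {Λ : Type} [AddCommGroup Λ] (p : ℕ) (s : Module.End ℤ Λ) (h : s ^ p = 1) (d : ℕ) :
    Pool.Agent.T9h3.Nm (d * p) s = d • Pool.Agent.T9h3.Nm p s := by
  induction d with
  | zero => simp [Pool.Agent.T9h3.Nm]
  | succ d ih =>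
    rw [add_mul, one_mul, succ_nsmul, ← ih]
    simp only [Pool.Agent.T9h3.Nm]
    rw [Finset.sum_range_add]
    congr 1
    refine Finset.sum_congr rfl fun i _ => ?_
    rw [pow_add, mul_comm d p, pow_mul, h, one_pow, one_mul]

lemma Nm_mul_iff {Λ ι : Type} [AddCommGroup Λ] (b : Module.Basis ι ℤ Λ) (p : ℕ)
    (s : Module.End ℤ Λ) (h : s ^ p = 1) (d : ℕ) (hd : 1 ≤ d) (x : Λ) :
    Pool.Agent.T9h3.Nm (d * p) s x = 0 ↔ Pool.Agent.T9h3.Nm p s x = 0 := by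
  rw [Nm_mul p s h d, LinearMap.smul_apply]
  constructor
  · intro h0
    apply b.ext_elem
    intro i
    have h1 : b.repr (d • Pool.Agent.T9h3.Nm p s x) i = 0 := by rw [h0]; simp
    rw [map_nsmul, Finsupp.smul_apply, nsmul_eq_mul, mul_eq_zero] at h1
    rcases h1 with h1 | h1
    · exfalso
      have : (d : ℤ) ≠ 0 := by exact_mod_cast (by omega : d ≠ 0)
      exact this h1
    · rw [h1]; simp
  · intro h0
    rw [h0, smul_zero]

theorem svr : S_Svr := by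
  intro Λ _ _ p d s Θ Δ v hd hs hv
  obtain ⟨ι, hι, b, h1, h2, h3⟩ := hv
  refine ⟨ι, hι, b, h1, ?_, h3⟩
  intro S x hx hN
  have h4 := h2 S x hx ((Nm_mul_iff b p s hs d hd x).1 hN)
  have h5 : {y : Λ | (∀ i ∈ S, b.repr y i = 0) ∧ Pool.Agent.T9h3.Nm (d * p) s y = 0 ∧
      v + pp b y ∈ Δ ∧ v + pp b (-y) ∈ Δ} = {y : Λ | (∀ i ∈ S, b.repr y i = 0) ∧
      Pool.Agent.T9h3.Nm p s y = 0 ∧ v + pp b y ∈ Δ ∧ v + pp b (-y) ∈ Δ} := by
    ext y
    simp only [Set.mem_ofPred_eq, Nm_mul_iff b p s hs d hd y]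
  rw [h5]
  exact h4

end Pool.Agent.T9h37.LN
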